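import Mathlib

/-!
# A lemma on subspaces
-/

set_option autoImplicit false

namespace Pool.Agent.R347.BE

open Finset

theorem compl_basis {V : Type} [AddCommGroup V] [Module ℚ V] (W N : Submodule ℚ V)
    [FiniteDimensional ℚ W] : ∃ (k : ℕ) (b : Fin k → V), (∀ i, b i ∈ W) ∧
      Module.finrank ℚ W = k + Module.finrank ℚ ↥(W ⊓ N) ∧
      ∀ g : Fin k → ℚ, ∑ i, g i • b i ∈ N → g = 0 := by
  let f : W →ₗ[ℚ] V ⧸ N := N.mkQ.comp W.subtype
  let c := Module.finBasis ℚ (LinearMap.range f)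
  choose b hb using fun i => (c i).2
  refine ⟨Module.finrank ℚ (LinearMap.range f), fun i => (b i : V), fun i => (b i).2, ?_, ?_⟩
  · have h1 := LinearMap.finrank_range_add_finrank_ker f
    have h2 : Module.finrank ℚ (LinearMap.ker f) = Module.finrank ℚ ↥(W ⊓ N) := by
      have e1 : LinearMap.ker f = N.comap W.subtype := by
        rw [LinearMap.ker_comp, Submodule.ker_mkQ]
      rw [e1, ← Submodule.map_comap_subtype]
      exact (Submodule.finrank_map_subtype_eq W _).symm
    omega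
  · intro g hg
    have h1 : ∑ i, g i • c i = 0 := by
      apply Subtype.ext
      have e1 : ((∑ i, g i • c i : LinearMap.range f) : V ⧸ N) = N.mkQ (∑ i, g i • (b i : V)) := by
        rw [AddSubmonoidClass.coe_finset_sum, map_sum]
        refine sum_congr rfl fun i _ => ?_
        rw [map_smul]
        show g i • ((c i : LinearMap.range f) : V ⧸ N) = g i • N.mkQ (b i : V)
        rw [← hb i]
        rfl
      rw [e1]
      exact (Submodule.Quotient.mk_eq_zero N).2 hg
    exact funext (Fintype.linearIndependent_iff.1 c.linearIndependent g h1)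

theorem two_basis {V : Type} [AddCommGroup V] [Module ℚ V] (W M L : Submodule ℚ V)
    [FiniteDimensional ℚ W] (hLM : L ≤ M) : ∃ (k l : ℕ) (b : Fin k → V) (c : Fin l → V),
      (∀ i, b i ∈ W) ∧ (∀ i, c i ∈ W) ∧ (∀ i, c i ∈ M) ∧
      Module.finrank ℚ W = k + l + Module.finrank ℚ ↥(W ⊓ L) ∧ (W ≤ M → k = 0) ∧
      (∀ g : Fin k → ℚ, ∑ i, g i • b i ∈ M → g = 0) ∧
      (∀ g : Fin l → ℚ, ∑ i, g i • c i ∈ L → g = 0) := by
  obtain ⟨k, b, hb, hk, hbM⟩ := compl_basis W M
  have : FiniteDimensional ℚ ↥(W ⊓ M) := Submodule.finiteDimensional_inf_left W M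
  obtain ⟨l, c, hc, hl, hcL⟩ := compl_basis (W ⊓ M) L
  have e : W ⊓ M ⊓ L = W ⊓ L := by rw [inf_assoc, inf_eq_right.2 hLM]
  rw [e] at hl
  refine ⟨k, l, b, c, hb, fun i => (hc i).1, fun i => (hc i).2, by omega, fun h => ?_, hbM, hcL⟩
  rw [inf_eq_left.2 h] at hk
  omega

end Pool.Agent.R347.BE
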