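import Mathlib

/-!
# Linear independence of real radicals (Besicovitch, Mordell)
-/

set_option autoImplicit false

namespace Pool.Agent.R347.BE

open Polynomial Finset

theorem isIntegral_radical {b : ℝ} {N : ℕ} (hN : 0 < N) (s : ℚ) (hs : b ^ N = s) : IsIntegral ℚ b := by
  refine ⟨X ^ N - C s, monic_X_pow_sub_C s hN.ne', ?_⟩
  simp [hs]

/-- the minimal polynomial of a positive real radical is a binomial -/
theorem minpoly_nextCoeff {b : ℝ} (hb : 0 < b) {N : ℕ} (hN : 0 < N) (s : ℚ) (hs : b ^ N = s)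
    (hirr : Irrational b) : (minpoly ℚ b).nextCoeff = 0 := by
  have hint := isIntegral_radical hN s hs
  set f := minpoly ℚ b with hf
  have hmon : f.Monic := minpoly.monic hint
  set m := f.natDegree with hm
  have hm1 : 0 < m := minpoly.natDegree_pos hint
  have hm2 : m ≠ 1 := by
    intro h1
    obtain ⟨r, hr⟩ := minpoly.mem_range_of_degree_eq_one ℚ b (by
      rw [← hf, degree_eq_natDegree hmon.ne_zero, ← hm, h1]; rfl)
    exact hirr ⟨r, hr⟩
  have hdvd : f ∣ X ^ N - C s := minpoly.dvd ℚ b (by simp [hs])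
  set F : ℂ[X] := f.map (algebraMap ℚ ℂ) with hF
  have hFm : F.Monic := hmon.map _
  have hFd : F.natDegree = m := natDegree_map _
  have hroot : ∀ r ∈ F.roots, ‖r‖ = b := by
    intro r hr
    have h1 : F.eval r = 0 := (mem_roots hFm.ne_zero).1 hr
    have h2 : F ∣ (X ^ N - C s : ℚ[X]).map (algebraMap ℚ ℂ) := Polynomial.map_dvd _ hdvd
    have h3 : ((X ^ N - C s : ℚ[X]).map (algebraMap ℚ ℂ)).eval r = 0 := by
      obtain ⟨g, hg⟩ := h2
      rw [hg, eval_mul, h1, zero_mul]
    have h4 : r ^ N = ((s : ℝ) : ℂ) := by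
      have : r ^ N - (s : ℂ) = 0 := by simpa using h3
      rw [sub_eq_zero] at this
      rw [this]
      push_cast
      rfl
    rw [← hs] at h4
    have h5 : ‖r‖ ^ N = b ^ N := by
      rw [← norm_pow, h4, Complex.norm_real, Real.norm_of_nonneg (by positivity)]
    exact (pow_left_inj₀ (norm_nonneg _) hb.le hN.ne').1 h5
  have hprod : ∀ S : Multiset ℂ, (∀ r ∈ S, ‖r‖ = b) → ‖S.prod‖ = b ^ S.card := by
    intro S
    induction S using Multiset.induction_on with
    | empty => intro _; simp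
    | cons a S ih =>
      intro h
      rw [Multiset.prod_cons, norm_mul, h a (Multiset.mem_cons_self _ _),
        ih fun r hr => h r (Multiset.mem_cons_of_mem hr), Multiset.card_cons, pow_succ]
      ring
  have hsplit : F.Splits := IsAlgClosed.splits F
  have hcard : F.roots.card = m := by rw [← hFd]; exact hsplit.natDegree_eq_card_roots.symm
  have hc0 : ‖F.coeff 0‖ = b ^ m := by
    have h1 := hsplit.coeff_zero_eq_prod_roots_of_monic hFm
    rw [h1, norm_mul, norm_pow, norm_neg, norm_one, one_pow, one_mul, hprod _ hroot, hcard]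
  have hc1 : |(f.coeff 0 : ℝ)| = b ^ m := by
    rw [← hc0, hF, coeff_map]
    simp
  set g : ℚ[X] := X ^ m - C |f.coeff 0| with hg
  have hgm : g.Monic := monic_X_pow_sub_C _ hm1.ne'
  have hgd : g.natDegree = m := natDegree_X_pow_sub_C
  have hfg : f ∣ g := minpoly.dvd ℚ b (by
    rw [hg]
    simp only [map_sub, map_pow, aeval_X, aeval_C]
    rw [← hc1]
    simp)
  have hfe : g = f := by
    refine eq_of_monic_of_dvd_of_natDegree_le hmon hgm hfg ?_ |>.symm ▸ rfl
    rw [hgd]
  rw [← hfe, nextCoeff_of_natDegree_pos (by omega), hgd, hg, coeff_sub, coeff_X_pow, coeff_C]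
  rw [if_neg (by omega), if_neg (by omega)]
  simp

/-- **Besicovitch, Mordell.** -/
theorem mordell {ι : Type*} [Fintype ι] (a : ι → ℝ) (ha : ∀ i, 0 < a i) (N : ℕ) (hN : 0 < N)
    (s : ι → ℚ) (hs : ∀ i, a i ^ N = s i) (hirr : ∀ i j, i ≠ j → Irrational (a i / a j)) (c : ι → ℚ)
    (hc : ∑ i, (c i : ℝ) * a i = 0) : ∀ i, c i = 0 := by
  classical
  intro i₀
  set b : ι → ℝ := fun i => a i / a i₀ with hb
  have hb0 : ∀ i, 0 < b i := fun i => div_pos (ha i) (ha i₀)
  have hbN : ∀ i, b i ^ N = ((s i / s i₀ : ℚ) : ℝ) := by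
    intro i
    rw [hb]
    push_cast
    rw [div_pow, hs, hs]
  have hbint : ∀ i, IsIntegral ℚ (b i) := fun i => isIntegral_radical hN _ (hbN i)
  set F := IntermediateField.adjoin ℚ (Set.range b) with hF
  have hfin : FiniteDimensional ℚ F := by
    apply IntermediateField.finiteDimensional_adjoin
    rintro _ ⟨i, rfl⟩
    exact hbint i
  have hbF : ∀ i, b i ∈ F := fun i => IntermediateField.subset_adjoin ℚ _ ⟨i, rfl⟩
  set B : ι → F := fun i => ⟨b i, hbF i⟩ with hB
  have hsum : ∑ i, c i • B i = 0 := by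
    apply Subtype.ext
    have h1 : ((∑ i, c i • B i : F) : ℝ) = ∑ i, (c i : ℝ) * b i := by
      rw [AddSubmonoidClass.coe_finsetSum]
      refine sum_congr rfl fun i _ => ?_
      rw [Algebra.smul_def]
      rfl
    rw [h1]
    have h2 : ∑ i, (c i : ℝ) * b i = (∑ i, (c i : ℝ) * a i) / a i₀ := by
      rw [sum_div]
      exact sum_congr rfl fun i _ => by rw [hb, mul_div_assoc]
    rw [h2, hc, zero_div]
    rfl
  have htr : ∀ i, i ≠ i₀ → Algebra.trace ℚ F (B i) = 0 := by
    intro i hi
    rw [trace_eq_finrank_mul_minpoly_nextCoeff]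
    have h1 : minpoly ℚ (B i) = minpoly ℚ (b i) := by
      have := minpoly.algebraMap_eq (A := ℚ) (B := F) (B' := ℝ) (algebraMap F ℝ).injective (B i)
      rw [← this]
      rfl
    rw [h1, minpoly_nextCoeff (hb0 i) hN _ (hbN i) (hirr i i₀ hi)]
    simp
  have htr0 : Algebra.trace ℚ F (B i₀) = Module.finrank ℚ F := by
    have h1 : B i₀ = algebraMap ℚ F 1 := by
      rw [map_one]
      apply Subtype.ext
      show a i₀ / a i₀ = 1
      exact div_self (ha i₀).ne'
    rw [h1, Algebra.trace_algebraMap]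
    simp
  have h1 := congrArg (Algebra.trace ℚ F) hsum
  rw [map_sum, map_zero] at h1
  rw [sum_eq_single i₀] at h1
  · rw [map_smul, htr0, smul_eq_mul] at h1
    have h2 : (Module.finrank ℚ F : ℚ) ≠ 0 := by
      exact_mod_cast Module.finrank_pos.ne'
    exact (mul_eq_zero.1 h1).resolve_right h2
  · intro i _ hi
    rw [map_smul, htr i hi, smul_zero]
  · intro h
    exact absurd (mem_univ _) h

end Pool.Agent.R347.BE
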