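import Pool.Agent.R347.SX.Low
import Pool.Agent.R347.BE.Radical

/-!
# Linear independence of products of powers of primes over the field of rationally approximable numbers
-/

set_option autoImplicit false

namespace Pool.Agent.R347.BE

open Finset
open Pool.Agent.R347.LW
open Pool.Agent.R347.GS (NE NE.const NE.mul NE.add NE.pow DI DI.mono DI.mul DI.pow DI.add DI.int DI.sum liouville)

variable {q : ℕ → ℕ} (hq : ∀ k, 2 ≤ q k)

include hq

theorem tow_pos (κ k : ℕ) : 1 ≤ tow κ (q k) := by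
  have := le_tow κ (q k)
  have := hq k
  omega

/-- common denominators -/
theorem common_den {σ : Type} [Fintype σ] (y : σ → ℝ) (hy : ∀ s, RAppr q (y s)) :
    ∃ h : ℕ, ∀ κ : ℕ, ∃ k₀ : ℕ, ∀ k ≥ k₀, ∃ (V : ℕ) (U : σ → ℤ), 1 ≤ V ∧ V ≤ tow h (q k) ∧
      ∀ s, |y s - U s / V| ≤ ((tow κ (q k) : ℕ) : ℝ)⁻¹ := by
  classical
  choose h hh using hy
  set H := univ.sup h with hH
  obtain ⟨h', hh'⟩ : NE q (fun k => tow H (q k) ^ Fintype.card σ) :=
    NE.pow hq ⟨H, fun _ => le_rfl⟩ (NE.const (Fintype.card σ))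
  refine ⟨h', fun κ => ?_⟩
  choose k₀ hk₀ using fun s => hh s κ
  refine ⟨univ.sup k₀, fun k hk => ?_⟩
  choose u v hv1 hv2 huv using fun s => hk₀ s k ((le_sup (f := k₀) (mem_univ s)).trans hk)
  refine ⟨∏ s, v s, fun s => u s * ∏ t ∈ univ.erase s, (v t : ℤ), ?_, ?_, fun s => ?_⟩
  · exact Nat.succ_le_of_lt (Finset.prod_pos (fun s _ => hv1 s))
  · refine le_trans ?_ (hh' k)
    calc ∏ s, v s ≤ ∏ _s : σ, tow H (q k) := prod_le_prod' fun s _ =>
          (hv2 s).trans (tow_mono_left (le_sup (f := h) (mem_univ s)) _)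
      _ = _ := by rw [prod_const, card_univ]
  · have h1 : (((u s * ∏ t ∈ univ.erase s, (v t : ℤ) : ℤ)) : ℝ) / ((∏ s, v s : ℕ) : ℝ) = u s / v s := by
      have h2 : ∏ s, v s = v s * ∏ t ∈ univ.erase s, v t := (mul_prod_erase univ _ (mem_univ s)).symm
      have h3 : (∏ t ∈ univ.erase s, (v t : ℝ)) ≠ 0 := prod_ne_zero_iff.2 fun t _ => by
        have := hv1 t
        exact_mod_cast (by omega : v t ≠ 0)
      rw [h2]
      push_cast
      rw [mul_div_mul_right _ _ h3]
    rw [h1]
    exact huv s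

omit hq in
/-- the value -/
theorem exp_diff {a b M : ℝ} (ha : a ≤ M) (hb : b ≤ M) : |Real.exp a - Real.exp b| ≤ Real.exp M * |a - b| := by
  wlog hab : b ≤ a generalizing a b with H
  · rw [abs_sub_comm, abs_sub_comm a]
    exact H hb ha (le_of_not_ge hab)
  rw [abs_of_nonneg (by have := Real.exp_le_exp.2 hab; linarith), abs_of_nonneg (by linarith)]
  have h1 : Real.exp a - Real.exp b = Real.exp a * (1 - Real.exp (b - a)) := by
    rw [mul_sub, mul_one, ← Real.exp_add]
    ring_nf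
  have h2 : 1 - Real.exp (b - a) ≤ a - b := by
    have := Real.add_one_le_exp (b - a)
    linarith
  have h3 : 0 ≤ 1 - Real.exp (b - a) := by
    have := Real.exp_le_one_iff.2 (show b - a ≤ 0 by linarith)
    linarith
  rw [h1]
  exact mul_le_mul (Real.exp_le_exp.2 ha) h2 h3 (Real.exp_pos _).le

/-- the product of powers of primes -/
noncomputable def pw {r : ℕ} (p : Fin r → ℕ) (y : Fin r → ℝ) : ℝ := Real.exp (∑ j, y j * Real.log (p j))

omit hq in
theorem pw_pos {r : ℕ} (p : Fin r → ℕ) (y : Fin r → ℝ) : 0 < pw p y := Real.exp_pos _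

omit hq in
theorem pw_pow {r : ℕ} (p : Fin r → ℕ) (hp : ∀ j, (p j).Prime) (U : Fin r → ℤ) (V : ℕ) (hV : 1 ≤ V) :
    pw p (fun j => U j / V) ^ V = ((∏ j, (p j : ℚ) ^ U j : ℚ) : ℝ) := by
  have hV0 : (V : ℝ) ≠ 0 := by exact_mod_cast (by omega : V ≠ 0)
  rw [pw, ← Real.exp_nat_mul, mul_sum]
  push_cast
  rw [Real.exp_sum]
  refine prod_congr rfl fun j _ => ?_
  have h1 : (0 : ℝ) < p j := by exact_mod_cast (hp j).pos
  have h2 : (V : ℝ) * ((U j : ℝ) / V * Real.log (p j)) = Real.log (p j) * (U j : ℝ) := by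
    field_simp
  rw [h2, Real.exp_mul, Real.exp_log h1, Real.rpow_intCast]

omit hq in
theorem pw_RB {r : ℕ} (p : Fin r → ℕ) (hp : ∀ j, (p j).Prime) (U : Fin r → ℤ) (V B : ℕ) (hV : 1 ≤ V)
    (hU : ∀ j, |U j| ≤ B) : RB V ((∏ j, p j) ^ B) ((pw p (fun j => U j / V) : ℝ) : ℂ) := by
  classical
  have hp0 : ∀ j, (p j : ℝ) ≠ 0 := fun j => by exact_mod_cast (hp j).ne_zero
  set A₁ : ℕ := ∏ j, p j ^ (-U j).toNat with hA₁
  set A₂ : ℕ := ∏ j, p j ^ (U j).toNat with hA₂
  have hle : ∀ e : Fin r → ℕ, (∀ j, e j ≤ B) → ∏ j, p j ^ e j ≤ (∏ j, p j) ^ B := by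
    intro e he
    rw [← prod_pow]
    exact prod_le_prod' fun j _ => Nat.pow_le_pow_right (hp j).pos (he j)
  have hA1 : A₁ ≤ (∏ j, p j) ^ B := hle _ fun j => by
    have := abs_le.1 (hU j)
    omega
  have hA2 : A₂ ≤ (∏ j, p j) ^ B := hle _ fun j => by
    have := abs_le.1 (hU j)
    omega
  have hA10 : A₁ ≠ 0 := prod_ne_zero_iff.2 fun j _ => pow_ne_zero _ (hp j).ne_zero
  refine ⟨Polynomial.C (A₁ : ℤ) * Polynomial.X ^ V - Polynomial.C (A₂ : ℤ), ?_, ?_, fun n => ?_, ?_⟩
  · intro h0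
    have h1 := congrArg (fun P => Polynomial.coeff P V) h0
    simp only [Polynomial.coeff_sub, Polynomial.coeff_C_mul, Polynomial.coeff_X_pow, if_true,
      Polynomial.coeff_C, Polynomial.coeff_zero, mul_one] at h1
    rw [if_neg (by omega), sub_zero] at h1
    exact hA10 (by exact_mod_cast h1)
  · refine (Polynomial.natDegree_sub_le _ _).trans ?_
    rw [Polynomial.natDegree_C, max_eq_left (Nat.zero_le _)]
    exact Polynomial.natDegree_C_mul_X_pow_le _ _
  · rw [Polynomial.coeff_sub, Polynomial.coeff_C_mul, Polynomial.coeff_X_pow, Polynomial.coeff_C]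
    have h1 : (A₁ : ℤ) ≤ (((∏ j, p j) ^ B : ℕ) : ℤ) := by exact_mod_cast hA1
    have h2 : (A₂ : ℤ) ≤ (((∏ j, p j) ^ B : ℕ) : ℤ) := by exact_mod_cast hA2
    have h3 : (0 : ℤ) ≤ A₁ := by positivity
    have h4 : (0 : ℤ) ≤ A₂ := by positivity
    by_cases hn : n = V
    · rw [if_pos hn, if_neg (by omega), mul_one, sub_zero, abs_of_nonneg h3]
      exact h1
    · rw [if_neg hn, mul_zero, zero_sub, abs_neg]
      by_cases hn0 : n = 0
      · rw [if_pos hn0, abs_of_nonneg h4]
        exact h2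
      · rw [if_neg hn0, abs_zero]
        omega
  · rw [map_sub, map_mul, map_pow, Polynomial.aeval_X, Polynomial.aeval_C, Polynomial.aeval_C]
    have h1 := pw_pow p hp U V hV
    have h2 : (A₁ : ℝ) * pw p (fun j => U j / V) ^ V = A₂ := by
      rw [h1, hA₁, hA₂]
      push_cast
      rw [← prod_mul_distrib]
      refine prod_congr rfl fun j _ => ?_
      rw [← zpow_natCast, ← zpow_natCast, ← zpow_add₀ (hp0 j)]
      congr 1
      omega
    have h3 : ((A₁ : ℂ)) * ((pw p (fun j => U j / V) : ℝ) : ℂ) ^ V = (A₂ : ℂ) := by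
      exact_mod_cast congrArg (fun x : ℝ => (x : ℂ)) h2
    simp only [algebraMap_int_eq, eq_intCast, Int.cast_natCast]
    rw [h3, sub_self]

/-- lower bound for combinations of radicals -/
theorem radical_lower {ι : Type} [Fintype ι] {r : ℕ} (p : Fin r → ℕ) (hp : ∀ j, (p j).Prime) (h X : ℕ) :
    ∃ κ : ℕ, ∀ k, ∀ (V : ℕ) (U : ι → Fin r → ℤ) (C : ι → ℤ), 1 ≤ V → V ≤ tow h (q k) →
      (∀ i j, |U i j| ≤ (X * V : ℕ)) → (∀ i, |C i| ≤ (X * V : ℕ)) →
      ∑ i, (C i : ℝ) * pw p (fun j => U i j / V) ≠ 0 →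
      ((tow κ (q k) : ℕ) : ℝ)⁻¹ < |∑ i, (C i : ℝ) * pw p (fun j => U i j / V)| := by
  classical
  set P : ℕ := ∏ j, p j with hP
  set n : ℕ := Fintype.card ι with hn
  have hb : NE q (fun k => tow h (q k)) := ⟨h, fun _ => le_rfl⟩
  have hB : NE q (fun k => X * tow h (q k)) := NE.mul hq (NE.const X) hb
  have hN : NE q (fun k => P ^ (X * tow h (q k))) := NE.pow hq (NE.const P) hB
  have hg : NE q (fun k => (n * tow h (q k) + 1) ^ (n * tow h (q k) + 1)) :=
    NE.pow hq (NE.add hq (NE.mul hq (NE.const n) hb) (NE.const 1))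
      (NE.add hq (NE.mul hq (NE.const n) hb) (NE.const 1))
  obtain ⟨κ, hκ⟩ : NE q (fun k => ((P ^ (X * tow h (q k))) ^ n *
      (n * ((X * tow h (q k)) * (P ^ (X * tow h (q k)) + 1)) + 1)) ^
      ((n * tow h (q k) + 1) ^ (n * tow h (q k) + 1)) + 1) :=
    NE.add hq (NE.pow hq (NE.mul hq (NE.pow hq hN (NE.const n))
      (NE.add hq (NE.mul hq (NE.const n) (NE.mul hq hB (NE.add hq hN (NE.const 1)))) (NE.const 1))) hg)
      (NE.const 1)
  refine ⟨κ, fun k V U C hV hVh hU hC hne => ?_⟩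
  set T := tow h (q k) with hT
  set N : ℕ := P ^ (X * T) with hNd
  have hPpos : 0 < P := Finset.prod_pos fun j _ => (hp j).pos
  have hXV : X * V ≤ X * T := Nat.mul_le_mul_left _ hVh
  have hRB : ∀ i, RB T N ((pw p (fun j => U i j / V) : ℝ) : ℂ) := fun i =>
    (pw_RB p hp (U i) V (X * V) hV (hU i)).mono hVh (Nat.pow_le_pow_right hPpos hXV)
  obtain ⟨L, hL1, hL2, hL3, A, D, hA, hD1, hD2, hint, hconj⟩ := common_field T N
    (fun i => ((pw p (fun j => U i j / V) : ℝ) : ℂ)) hRB
  have hDI : ∀ i, DI D 1 (A i) := by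
    intro i
    unfold DI
    rw [pow_one]
    exact hint i
  set θ : L := ∑ i, (C i : L) * A i with hθ
  have hθC : (θ : ℂ) = ((∑ i, (C i : ℝ) * pw p (fun j => U i j / V) : ℝ) : ℂ) := by
    rw [hθ]
    push_cast
    exact sum_congr rfl fun i _ => by rw [hA]
  have hθ0 : θ ≠ 0 := by
    intro h0
    apply hne
    have : (θ : ℂ) = 0 := by rw [h0]; rfl
    rw [hθC] at this
    exact_mod_cast this
  have hθDI : DI D 1 θ := DI.sum _ _ fun i _ => by
    have := (DI.int (L := L) D 0 (C i)).mul (hDI i)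
    rwa [zero_add] at this
  set M : ℕ := n * ((X * T) * (N + 1)) + 1 with hM
  have hcon : ∀ σ : L ≃ₐ[ℚ] L, ‖((σ θ : L) : ℂ)‖ ≤ (M : ℝ) := by
    intro σ
    have e : ((σ θ : L) : ℂ) = ∑ i, (C i : ℂ) * ((σ (A i) : L) : ℂ) := by
      rw [hθ, map_sum]
      push_cast
      refine sum_congr rfl fun i _ => ?_
      rw [map_mul, map_intCast]
      push_cast
      rfl
    rw [e]
    refine (norm_sum_le _ _).trans ?_
    calc ∑ i, ‖(C i : ℂ) * ((σ (A i) : L) : ℂ)‖ ≤ ∑ _i : ι, ((X * T : ℕ) : ℝ) * (N + 1) := by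
          refine sum_le_sum fun i _ => ?_
          rw [norm_mul, Complex.norm_intCast]
          have h1 : |(C i : ℝ)| ≤ ((X * T : ℕ) : ℝ) := by
            have := hC i
            have h2 : |C i| ≤ ((X * T : ℕ) : ℤ) := this.trans (by exact_mod_cast hXV)
            exact_mod_cast h2
          exact mul_le_mul h1 (hconj i σ) (norm_nonneg _) (by positivity)
      _ = n * (((X * T : ℕ) : ℝ) * (N + 1)) := by rw [sum_const, card_univ, nsmul_eq_mul]
      _ ≤ M := by rw [hM]; push_cast; linarith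
  have hM1 : (1 : ℝ) ≤ M := by exact_mod_cast (by omega : 1 ≤ M)
  have h1 := liouville L D 1 _ rfl θ hθDI hθ0 M hM1 hcon hD1
  have h2 : ((D : ℝ) ^ 1 * M) ^ Fintype.card (L ≃ₐ[ℚ] L) + 1 ≤ tow κ (q k) := by
    have h3 : (D ^ 1 * M) ^ Fintype.card (L ≃ₐ[ℚ] L) + 1 ≤ tow κ (q k) := by
      have h4 : D ^ 1 * M ≤ N ^ n * M := by rw [pow_one]; exact Nat.mul_le_mul_right _ hD2
      have h5 : 1 ≤ N ^ n * M := by
        have : 1 ≤ N := Nat.one_le_pow _ _ hPpos
        have h6 : 1 ≤ N ^ n := Nat.one_le_pow _ _ (by omega)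
        have h7 : 1 ≤ M := by omega
        exact Nat.mul_pos h6 h7
      have h6 : (D ^ 1 * M) ^ Fintype.card (L ≃ₐ[ℚ] L) ≤
          (N ^ n * M) ^ ((n * T + 1) ^ (n * T + 1)) :=
        (Nat.pow_le_pow_left h4 _).trans (Nat.pow_le_pow_right h5 hL3)
      exact (Nat.add_le_add_right h6 1).trans (hκ k)
    exact_mod_cast h3
  have hnorm : |∑ i, (C i : ℝ) * pw p (fun j => U i j / V)| = ‖(θ : ℂ)‖ := by
    rw [hθC, Complex.norm_real, Real.norm_eq_abs]
  rw [hnorm]
  have h3 : (0 : ℝ) < tow κ (q k) := by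
    have : (0 : ℝ) ≤ ((D : ℝ) ^ 1 * M) ^ Fintype.card (L ≃ₐ[ℚ] L) := by positivity
    linarith
  rw [inv_lt_iff_one_lt_mul₀ h3]
  have h4 : 0 < ‖(θ : ℂ)‖ := by
    rw [norm_pos_iff]
    intro h0
    exact hθ0 (Subtype.ext h0)
  nlinarith

/-- **Besicovitch's theorem over the field of rationally approximable numbers.** -/
theorem besi {ι : Type} [Fintype ι] {r : ℕ} (p : Fin r → ℕ) (hp : ∀ j, (p j).Prime)
    (hpi : Function.Injective p) (x : ι → Fin r → ℝ) (hx : ∀ i j, RAppr q (x i j)) (c : ι → ℝ)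
    (hc : ∀ i, RAppr q (c i)) (hne : ∀ i l, i ≠ l → ∃ j, ∀ n : ℤ, x i j - x l j ≠ n)
    (h : ∑ i, c i * pw p (x i) = 0) : ∀ i, c i = 0 := by
  classical
  -- the approximations
  set y : (ι × Fin r) ⊕ ι → ℝ := Sum.elim (fun a => x a.1 a.2) c with hy
  have hyR : ∀ s, RAppr q (y s) := by
    rintro (⟨i, j⟩ | i)
    · exact hx i j
    · exact hc i
  obtain ⟨H, hH⟩ := common_den hq y hyR
  set X : ℕ := ⌈∑ s, |y s|⌉₊ + 1 with hX
  have hyX : ∀ s, |y s| + 1 ≤ X := by
    intro s
    have h1 : |y s| ≤ ∑ s, |y s| := single_le_sum (f := fun s => |y s|) (fun _ _ => abs_nonneg _) (mem_univ s)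
    have h2 := Nat.le_ceil (∑ s, |y s|)
    rw [hX]
    push_cast
    linarith
  obtain ⟨κ₁, hκ₁⟩ := radical_lower hq (ι := ι) p hp H X
  -- the distances from the integers
  have hdist : ∀ i l, i ≠ l → ∃ j, ∃ ε : ℝ, 0 < ε ∧ ∀ n : ℤ, ε ≤ |x i j - x l j - n| := by
    intro i l hil
    obtain ⟨j, hj⟩ := hne i l hil
    set z := x i j - x l j with hz
    refine ⟨j, min (Int.fract z) (1 - Int.fract z), ?_, fun n => ?_⟩
    · have h1 : Int.fract z ≠ 0 := by
        intro h0
        apply hj ⌊z⌋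
        have := Int.floor_add_fract z
        rw [h0, add_zero] at this
        exact this.symm
      have h2 := Int.fract_nonneg z
      have h3 := Int.fract_lt_one z
      exact lt_min (lt_of_le_of_ne h2 (Ne.symm h1)) (by linarith)
    · rw [Int.fract]
      have h2 := Int.floor_le z
      have h3 := Int.lt_floor_add_one z
      rcases le_or_gt n ⌊z⌋ with h4 | h4
      · have h5 : (n : ℝ) ≤ ⌊z⌋ := by exact_mod_cast h4
        refine (min_le_left _ _).trans ?_
        rw [abs_of_nonneg (by linarith)]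
        linarith
      · have h5 : ((⌊z⌋ : ℝ) + 1) ≤ n := by exact_mod_cast h4
        refine (min_le_right _ _).trans ?_
        rw [abs_of_nonpos (by linarith)]
        linarith
  -- constants
  set Λ : ℝ := ∑ j, Real.log (p j) with hΛ
  have hlog : ∀ j, 0 ≤ Real.log (p j) := fun j => Real.log_nonneg (by exact_mod_cast (hp j).one_le)
  have hΛ0 : 0 ≤ Λ := sum_nonneg fun j _ => hlog j
  set E : ℝ := Real.exp (X * Λ) with hE
  have hE1 : 0 < E := Real.exp_pos _
  have hexpo : ∀ v : Fin r → ℝ, (∀ j, |v j| ≤ X) → ∑ j, v j * Real.log (p j) ≤ X * Λ := by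
    intro v hv
    rw [hΛ, mul_sum]
    exact sum_le_sum fun j _ => mul_le_mul_of_nonneg_right ((le_abs_self _).trans (hv j)) (hlog j)
  set A : ℝ := Fintype.card ι * (E + X * (E * Λ)) with hA
  have hA0 : 0 ≤ A := by positivity
  have main : ∀ κ : ℕ, ∃ k : ℕ, ∀ i, |c i| ≤ ((tow κ (q k) : ℕ) : ℝ)⁻¹ := by
    intro κ₂
    obtain ⟨κ₃, hκ₃⟩ : NE q (fun k => (⌈A⌉₊ + 1) * tow H (q k) * tow κ₁ (q k)) :=
      NE.mul hq (NE.mul hq (NE.const _) ⟨H, fun _ => le_rfl⟩) ⟨κ₁, fun _ => le_rfl⟩
    choose J ε hε hεn using hdist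
    set κ := max κ₂ κ₃ with hκd
    -- a bound for the distances
    obtain ⟨κ₄, hκ₄⟩ : ∃ κ₄ : ℕ, ∀ i l (hil : i ≠ l), 2 < ε i l hil * κ₄ := by
      have h1 : ∀ i l, ∃ N : ℕ, ∀ hil : i ≠ l, 2 < ε i l hil * N := by
        intro i l
        by_cases hil : i ≠ l
        · obtain ⟨N, hN⟩ := exists_nat_gt (2 / ε i l hil)
          refine ⟨N, fun _ => ?_⟩
          rw [div_lt_iff₀ (hε i l hil)] at hN
          linarith
        · exact ⟨0, fun h => absurd h hil⟩
      choose N hN using h1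
      refine ⟨univ.sup fun i => univ.sup fun l => N i l, fun i l hil => ?_⟩
      refine lt_of_lt_of_le (hN i l hil) (mul_le_mul_of_nonneg_left ?_ (hε i l hil).le)
      have h2 : N i l ≤ univ.sup fun l => N i l := le_sup (f := fun l => N i l) (mem_univ l)
      have h3 : (univ.sup fun l => N i l) ≤ univ.sup fun i => univ.sup fun l => N i l :=
        le_sup (f := fun i => univ.sup fun l => N i l) (mem_univ i)
      exact_mod_cast h2.trans h3
    obtain ⟨k, hk⟩ := hH (max κ κ₄)
    obtain ⟨V, U, hV1, hVH, hUV⟩ := hk k le_rfl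
    set δ : ℝ := ((tow (max κ κ₄) (q k) : ℕ) : ℝ)⁻¹ with hδ
    have hVR : (1 : ℝ) ≤ V := by exact_mod_cast hV1
    have hV0 : (0 : ℝ) < V := by linarith
    have htp : (1 : ℝ) ≤ tow (max κ κ₄) (q k) := by exact_mod_cast tow_pos hq _ k
    have hδ0 : 0 < δ := by positivity
    have hδ1 : δ ≤ 1 := inv_le_one_of_one_le₀ htp
    have hδκ : ∀ κ', κ' ≤ max κ κ₄ → δ ≤ ((tow κ' (q k) : ℕ) : ℝ)⁻¹ := fun κ' h' =>
      inv_anti₀ (by exact_mod_cast tow_pos hq _ k) (by exact_mod_cast tow_mono_left h' _)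
    have hUb : ∀ s, |(U s : ℝ) / V| ≤ X := by
      intro s
      have h1 := hUV s
      have h2 := hyX s
      have h3 : |(U s : ℝ) / V| ≤ |y s| + |y s - U s / V| := by
        have := abs_sub_abs_le_abs_sub ((U s : ℝ) / V) (y s)
        rw [abs_sub_comm] at this
        linarith
      linarith
    have hUi : ∀ s, |U s| ≤ ((X * V : ℕ) : ℤ) := by
      intro s
      have h1 := hUb s
      rw [abs_div, abs_of_pos hV0, div_le_iff₀ hV0] at h1
      exact_mod_cast h1
    set C : ι → ℤ := fun i => U (Sum.inr i) with hC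
    set W : ι → Fin r → ℤ := fun i j => U (Sum.inl (i, j)) with hW
    have hcC : ∀ i, |c i - C i / V| ≤ δ := fun i => hUV (Sum.inr i)
    have hxW : ∀ i j, |x i j - W i j / V| ≤ δ := fun i j => hUV (Sum.inl (i, j))
    have hpwd : ∀ i, |pw p (x i) - pw p (fun j => (W i j : ℝ) / V)| ≤ E * Λ * δ := by
      intro i
      refine (exp_diff (hexpo (x i) fun j => ?_) (hexpo (fun j => (W i j : ℝ) / V) fun j => hUb _)).trans ?_
      · have := hyX (Sum.inl (i, j))
        have e : y (Sum.inl (i, j)) = x i j := rfl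
        rw [e] at this
        linarith
      · rw [mul_assoc]
        refine mul_le_mul_of_nonneg_left ?_ hE1.le
        rw [← sum_sub_distrib, hΛ, sum_mul]
        refine (abs_sum_le_sum_abs _ _).trans (sum_le_sum fun j _ => ?_)
        rw [← sub_mul, abs_mul, abs_of_nonneg (hlog j), mul_comm]
        exact mul_le_mul_of_nonneg_left (hxW i j) (hlog j)
    have hpwE : ∀ i, |pw p (fun j => (W i j : ℝ) / V)| ≤ E := by
      intro i
      rw [abs_of_pos (pw_pos _ _)]
      exact Real.exp_le_exp.2 (hexpo _ fun j => hUb _)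
    have hθ : |∑ i, (C i : ℝ) * pw p (fun j => (W i j : ℝ) / V)| ≤ V * (A * δ) := by
      have e1 : ∑ i, (C i : ℝ) * pw p (fun j => (W i j : ℝ) / V) =
          V * (∑ i, ((C i : ℝ) / V * pw p (fun j => (W i j : ℝ) / V) - c i * pw p (x i))) := by
        rw [sum_sub_distrib, h, sub_zero, mul_sum]
        refine sum_congr rfl fun i _ => ?_
        field_simp
      rw [e1, abs_mul, abs_of_pos hV0]
      refine mul_le_mul_of_nonneg_left ?_ hV0.le
      refine (abs_sum_le_sum_abs _ _).trans ?_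
      calc ∑ i, |(C i : ℝ) / V * pw p (fun j => (W i j : ℝ) / V) - c i * pw p (x i)|
          ≤ ∑ _i : ι, (E + X * (E * Λ)) * δ := by
            refine sum_le_sum fun i _ => ?_
            have e2 : (C i : ℝ) / V * pw p (fun j => (W i j : ℝ) / V) - c i * pw p (x i) =
                -((c i - C i / V) * pw p (fun j => (W i j : ℝ) / V)) -
                  c i * (pw p (x i) - pw p (fun j => (W i j : ℝ) / V)) := by ring
            rw [e2]
            refine (abs_sub _ _).trans ?_
            rw [abs_neg, abs_mul, abs_mul]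
            have t1 : |c i - C i / V| * |pw p (fun j => (W i j : ℝ) / V)| ≤ δ * E :=
              mul_le_mul (hcC i) (hpwE i) (abs_nonneg _) hδ0.le
            have t2 : |c i| * |pw p (x i) - pw p (fun j => (W i j : ℝ) / V)| ≤ X * (E * Λ * δ) := by
              refine mul_le_mul ?_ (hpwd i) (abs_nonneg _) (by positivity)
              have := hyX (Sum.inr i)
              have e : y (Sum.inr i) = c i := rfl
              rw [e] at this
              linarith
            linarith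
        _ = A * δ := by rw [sum_const, card_univ, nsmul_eq_mul, hA]; ring
    have hθ0 : ∑ i, (C i : ℝ) * pw p (fun j => (W i j : ℝ) / V) = 0 := by
      by_contra hne0
      have h1 := hκ₁ k V W C hV1 hVH (fun i j => hUi _) (fun i => hUi _) hne0
      have h2 : ((⌈A⌉₊ : ℝ) + 1) * tow H (q k) * tow κ₁ (q k) ≤ tow κ₃ (q k) := by
        exact_mod_cast hκ₃ k
      have h3 : δ ≤ ((tow κ₃ (q k) : ℕ) : ℝ)⁻¹ := hδκ κ₃ ((le_max_right _ _).trans (le_max_left _ _))
      have h4 := Nat.le_ceil A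
      have hk1 : (1 : ℝ) ≤ tow κ₁ (q k) := by exact_mod_cast tow_pos hq κ₁ k
      have hkH : (V : ℝ) ≤ tow H (q k) := by exact_mod_cast hVH
      have h5 : V * (A * δ) * tow κ₁ (q k) ≤ 1 := by
        have hp3 : (0 : ℝ) < tow κ₃ (q k) := by
          have : (1 : ℝ) ≤ tow κ₃ (q k) := by exact_mod_cast tow_pos hq κ₃ k
          linarith
        have h6 : δ * tow κ₃ (q k) ≤ 1 := by
          have := mul_le_mul_of_nonneg_right h3 hp3.le
          rwa [inv_mul_cancel₀ hp3.ne'] at this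
        have h7 : V * (A * δ) * tow κ₁ (q k) ≤
            (((⌈A⌉₊ : ℝ) + 1) * tow H (q k) * tow κ₁ (q k)) * δ := by
          have : V * (A * δ) * tow κ₁ (q k) = (A * V * tow κ₁ (q k)) * δ := by ring
          rw [this]
          refine mul_le_mul_of_nonneg_right ?_ hδ0.le
          gcongr
          linarith
        have h8 : (((⌈A⌉₊ : ℝ) + 1) * tow H (q k) * tow κ₁ (q k)) * δ ≤ tow κ₃ (q k) * δ :=
          mul_le_mul_of_nonneg_right h2 hδ0.le
        linarith
      have h6 : V * (A * δ) ≤ ((tow κ₁ (q k) : ℕ) : ℝ)⁻¹ := by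
        rw [← one_div, le_div_iff₀ (by linarith)]
        exact h5
      linarith
    -- Besicovitch's theorem
    have hirr : ∀ i l, i ≠ l → Irrational (pw p (fun j => (W i j : ℝ) / V) / pw p (fun j => (W l j : ℝ) / V)) := by
      intro i l hil
      rintro ⟨s, hs⟩
      have hs0 : s ≠ 0 := by
        rintro rfl
        have := div_pos (pw_pos p (fun j => (W i j : ℝ) / V)) (pw_pos p (fun j => (W l j : ℝ) / V))
        rw [← hs] at this
        simp at this
      have h1 : (s : ℝ) ^ V = ((∏ j, (p j : ℚ) ^ (W i j - W l j) : ℚ) : ℝ) := by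
        rw [hs, div_pow, pw_pow p hp (W i) V hV1, pw_pow p hp (W l) V hV1]
        push_cast
        rw [← prod_div_distrib]
        refine prod_congr rfl fun j _ => ?_
        rw [zpow_sub₀ (by exact_mod_cast (hp j).ne_zero)]
      have h2 : s ^ V = ∏ j, (p j : ℚ) ^ (W i j - W l j) := by exact_mod_cast h1
      have h3 := hεn i l hil (padicValRat (p (J i l hil)) s)
      set j₀ := J i l hil with hj₀
      have : Fact (p j₀).Prime := ⟨hp j₀⟩
      have h4 := congrArg (padicValRat (p j₀)) h2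
      have h5 : padicValRat (p j₀) (∏ j, (p j : ℚ) ^ (W i j - W l j)) = W i j₀ - W l j₀ := by
        have h6 : ∀ S : Finset (Fin r), padicValRat (p j₀) (∏ j ∈ S, (p j : ℚ) ^ (W i j - W l j)) =
            if j₀ ∈ S then W i j₀ - W l j₀ else 0 := by
          intro S
          induction S using Finset.induction_on with
          | empty => simp
          | insert a S ha ih =>
            have h0 : ∀ j, ((p j : ℚ)) ≠ 0 := fun j => by exact_mod_cast (hp j).ne_zero
            rw [prod_insert ha, padicValRat.mul (zpow_ne_zero _ (h0 a))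
              (prod_ne_zero_iff.2 fun j _ => zpow_ne_zero _ (h0 j)), ih, padicValRat.zpow]
            by_cases haj : a = j₀
            · subst haj
              rw [if_neg ha, if_pos (mem_insert_self _ _), padicValRat.self (hp _).one_lt]
              ring
            · have h7 : padicValRat (p j₀) (p a : ℚ) = 0 := by
                rw [padicValRat.of_nat]
                have : ¬ p j₀ ∣ p a := fun hd => haj (hpi ((Nat.prime_dvd_prime_iff_eq (hp j₀) (hp a)).1 hd)).symm
                rw [padicValNat.eq_zero_of_not_dvd this]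
                rfl
              rw [h7, mul_zero, zero_add]
              have h8 : j₀ ∈ insert a S ↔ j₀ ∈ S := by
                rw [mem_insert]
                exact ⟨fun h => h.resolve_left (fun h' => haj h'.symm), Or.inr⟩
              simp only [h8]
        have := h6 univ
        rwa [if_pos (mem_univ _)] at this
      rw [h5, padicValRat.pow] at h4
      -- the distance
      have h6 : ((W i j₀ : ℝ) - W l j₀) = V * (padicValRat (p j₀) s : ℝ) := by exact_mod_cast h4.symm
      have h7 : |x i j₀ - x l j₀ - (padicValRat (p j₀) s : ℝ)| ≤ 2 * δ := by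
        have e : x i j₀ - x l j₀ - (padicValRat (p j₀) s : ℝ) =
            (x i j₀ - W i j₀ / V) - (x l j₀ - W l j₀ / V) := by
          have : (padicValRat (p j₀) s : ℝ) = (W i j₀ : ℝ) / V - W l j₀ / V := by
            rw [← sub_div, h6]
            field_simp
          rw [this]
          ring
        rw [e]
        refine (abs_sub _ _).trans ?_
        have := hxW i j₀
        have := hxW l j₀
        linarith
      have h8 := hκ₄ i l hil
      have h9 : δ * κ₄ ≤ 1 := by
        have h10 : (κ₄ : ℝ) ≤ tow (max κ κ₄) (q k) := by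
          have h11 := le_tow κ₄ (q k)
          have h12 := tow_mono_left (le_max_right κ κ₄) (q k)
          exact_mod_cast (by omega : κ₄ ≤ tow (max κ κ₄) (q k))
        calc δ * κ₄ ≤ δ * tow (max κ κ₄) (q k) := mul_le_mul_of_nonneg_left h10 hδ0.le
          _ = 1 := inv_mul_cancel₀ (by linarith)
      have h10 : ε i l hil * κ₄ ≤ 2 * δ * κ₄ := mul_le_mul_of_nonneg_right (h3.trans h7) (by positivity)
      linarith
    have hC0 := mordell (fun i => pw p (fun j => (W i j : ℝ) / V)) (fun i => pw_pos _ _) V hV1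
      (fun i => ∏ j, (p j : ℚ) ^ W i j) (fun i => pw_pow p hp (W i) V hV1) hirr (fun i => (C i : ℚ)) (by
        rw [← hθ0]
        refine sum_congr rfl fun i _ => ?_
        push_cast
        rfl)
    refine ⟨k, fun i => ?_⟩
    have h1 := hcC i
    have h2 : (C i : ℚ) = 0 := hC0 i
    have h3 : (C i : ℝ) = 0 := by exact_mod_cast h2
    rw [h3, zero_div, sub_zero] at h1
    exact h1.trans (hδκ κ₂ ((le_max_left _ _).trans (le_max_left _ _)))
  intro i
  by_contra hci
  have h0 : 0 < |c i| := abs_pos.2 hci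
  obtain ⟨κ, hκ⟩ := exists_nat_gt (|c i|⁻¹)
  obtain ⟨k, hk⟩ := main κ
  have h1 := hk i
  have h4 : (κ : ℝ) ≤ tow κ (q k) := by
    have := le_tow κ (q k)
    exact_mod_cast (by omega : κ ≤ tow κ (q k))
  have h5 : (0 : ℝ) < tow κ (q k) := by
    have : 0 < |c i|⁻¹ := by positivity
    linarith
  rw [le_inv_comm₀ h0 h5] at h1
  linarith

end Pool.Agent.R347.BE
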