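import Pool.Agent.R347.BE.Approx
import Pool.Agent.R347.SX.Trans

/-!
# Algebraic independence of products of powers of primes, and Schanuel's inequality
-/

set_option autoImplicit false

namespace Pool.Agent.R347.BE

open Finset
open Pool.Agent.R347.LW

variable {q : ℕ → ℕ} (hq : ∀ k, 2 ≤ q k)

theorem pw_monomial {n r : ℕ} (p : Fin r → ℕ) (x : Fin n → Fin r → ℝ) (m : Fin n →₀ ℕ) :
    ∏ i, pw p (x i) ^ m i = pw p (fun j => ∑ i, (m i : ℝ) * x i j) := by
  unfold pw
  have h : ∀ i, Real.exp (∑ j, x i j * Real.log (p j)) ^ m i =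
      Real.exp ((m i : ℝ) * ∑ j, x i j * Real.log (p j)) := fun i => by rw [← Real.exp_nat_mul]
  simp only [h]
  rw [← Real.exp_sum]
  congr 1
  simp only [mul_sum, sum_mul]
  rw [sum_comm]
  refine sum_congr rfl fun j _ => sum_congr rfl fun i _ => by ring

include hq

theorem sum_mem {n : ℕ} (m : Fin n → ℤ) (x : Fin n → ℝ) (hx : ∀ i, RAppr q (x i)) :
    RAppr q (∑ i, (m i : ℝ) * x i) := by
  have h1 : (∑ i, (m i : ℝ) * x i) ∈ UR hq :=
    (UR hq).sum_mem fun i _ => (UR hq).mul_mem (intCast_mem _ _) (hx i)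
  exact h1

/-- algebraic independence -/
theorem indep {n r : ℕ} (p : Fin r → ℕ) (hp : ∀ j, (p j).Prime) (hpi : Function.Injective p)
    (x : Fin n → Fin r → ℝ) (hx : ∀ i j, RAppr q (x i j))
    (hi : ∀ m : Fin n → ℤ, m ≠ 0 → ∃ j, ∀ N : ℤ, ∑ i, (m i : ℝ) * x i j ≠ N) :
    AlgebraicIndependent (UR hq) (fun i => pw p (x i)) := by
  classical
  rw [algebraicIndependent_iff]
  intro P hP
  rw [MvPolynomial.aeval_def, MvPolynomial.eval₂_eq'] at hP
  have h0 := besi hq (ι := P.support) p hp hpi
    (fun m j => ∑ i, (((m : Fin n →₀ ℕ) i : ℕ) : ℝ) * x i j) (fun m j => by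
      have := sum_mem hq (fun i => (((m : Fin n →₀ ℕ) i : ℕ) : ℤ)) (fun i => x i j) (fun i => hx i j)
      simpa using this)
    (fun m => ((P.coeff (m : Fin n →₀ ℕ) : UR hq) : ℝ)) (fun m => (P.coeff (m : Fin n →₀ ℕ)).2)
    (fun m m' hmm => by
      obtain ⟨j, hj⟩ := hi (fun i => (((m : Fin n →₀ ℕ) i : ℕ) : ℤ) - (((m' : Fin n →₀ ℕ) i : ℕ) : ℤ)) (by
        intro h0
        apply hmm
        apply Subtype.ext
        ext i
        have := congrFun h0 i
        simp only [Pi.zero_apply] at this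
        omega)
      refine ⟨j, fun N hN => hj N ?_⟩
      rw [← hN, ← sum_sub_distrib]
      refine sum_congr rfl fun i _ => ?_
      push_cast
      ring) (by
      rw [← hP, ← Finset.sum_coe_sort P.support (fun m : Fin n →₀ ℕ =>
        algebraMap (UR hq) ℝ (P.coeff m) * ∏ i, pw p (x i) ^ m i)]
      refine sum_congr rfl fun m _ => ?_
      rw [pw_monomial]
      rfl)
  ext m
  rw [MvPolynomial.coeff_zero]
  by_cases hm : m ∈ P.support
  · exact congrArg _ (Subtype.ext (h0 ⟨m, hm⟩))
  · rw [MvPolynomial.notMem_support_iff.1 hm]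

theorem log_notMem {p : ℕ} (hp : p.Prime) : ¬ Appr q ((Real.log p : ℝ) : ℂ) := by
  intro h
  have h0 : (0 : ℝ) < p := by exact_mod_cast hp.pos
  have h1 := algIndU hq 1 (fun _ => ⟨_, h⟩) (by
    rw [linearIndependent_unique_iff]
    intro h2
    have h3 : ((Real.log p : ℝ) : ℂ) = 0 := congrArg Subtype.val h2
    have h4 : Real.log p = 0 := by exact_mod_cast h3
    have h5 := Real.log_pos (by exact_mod_cast hp.one_lt : (1 : ℝ) < p)
    linarith)
  refine h1.transcendental 0 ?_
  have h2 : Complex.exp (((⟨_, h⟩ : UK hq) : ℂ)) = algebraMap (UK hq) ℂ (p : UK hq) := by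
    rw [map_natCast]
    show Complex.exp ((Real.log p : ℝ) : ℂ) = _
    rw [← Complex.ofReal_exp, Real.exp_log h0]
    simp
  rw [h2]
  exact isAlgebraic_algebraMap _

omit hq in
theorem trdeg_le {F : IntermediateField ℚ ℂ} {ι : Type} (w : ι → ℂ) (hw : ∀ i, w i ∈ F)
    (h : AlgebraicIndependent ℚ w) : Cardinal.mk ι ≤ Algebra.trdeg ℚ F := by
  have h1 : AlgebraicIndependent ℚ (fun i => (⟨w i, hw i⟩ : F)) :=
    AlgebraicIndependent.of_comp F.val h
  exact h1.cardinalMk_le_trdeg

/-- **Schanuel's inequality** for multiples of the logarithm of a prime number -/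
theorem schanuel {p : ℕ} (hp : p.Prime) {n : ℕ} (x : Fin n → ℝ) (hx : ∀ i, RAppr q (x i))
    (hli : LinearIndependent ℚ x) :
    (n : Cardinal) ≤ Algebra.trdeg ℚ (IntermediateField.adjoin ℚ
      (Set.range (fun i => ((x i * Real.log p : ℝ) : ℂ)) ∪
        Set.range (fun i => Complex.exp ((x i * Real.log p : ℝ) : ℂ)))) := by
  classical
  set F := IntermediateField.adjoin ℚ (Set.range (fun i => ((x i * Real.log p : ℝ) : ℂ)) ∪
        Set.range (fun i => Complex.exp ((x i * Real.log p : ℝ) : ℂ))) with hF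
  have hzF : ∀ i, ((x i * Real.log p : ℝ) : ℂ) ∈ F := fun i =>
    IntermediateField.subset_adjoin ℚ _ (Or.inl ⟨i, rfl⟩)
  have heF : ∀ i, Complex.exp ((x i * Real.log p : ℝ) : ℂ) ∈ F := fun i =>
    IntermediateField.subset_adjoin ℚ _ (Or.inr ⟨i, rfl⟩)
  -- independence of the exponentials
  have key : ∀ (m : ℕ) (f : Fin m → Fin n), (∀ a : Fin m → ℤ, a ≠ 0 → ∀ N : ℤ,
      ∑ i, (a i : ℝ) * x (f i) ≠ N) →
      AlgebraicIndependent ℚ (fun i => Complex.exp ((x (f i) * Real.log p : ℝ) : ℂ)) := by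
    intro m f hf
    have h1 := indep hq (r := 1) (fun _ => p) (fun _ => hp) (Function.injective_of_subsingleton _)
      (fun i _ => x (f i)) (fun i _ => hx _) (fun a ha => ⟨0, fun N => hf a ha N⟩)
    have h2 : AlgebraicIndependent ℚ (fun i => pw (r := 1) (fun _ => p) (fun _ => x (f i))) :=
      h1.restrictScalars (algebraMap ℚ (UR hq)).injective
    have h3 := (AlgHom.algebraicIndependent_iff (IsScalarTower.toAlgHom ℚ ℝ ℂ)
      (algebraMap ℝ ℂ).injective).2 h2
    have h4 : (fun i => Complex.exp ((x (f i) * Real.log p : ℝ) : ℂ)) =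
        (IsScalarTower.toAlgHom ℚ ℝ ℂ) ∘ (fun i => pw (r := 1) (fun _ => p) (fun _ => x (f i))) := by
      funext i
      simp [pw]
    rw [h4]
    exact h3
  by_cases hcase : ∀ a : Fin n → ℤ, a ≠ 0 → ∀ N : ℤ, ∑ i, (a i : ℝ) * x i ≠ N
  · have h1 := key n id hcase
    have h2 := trdeg_le (F := F) _ (fun i => heF i) h1
    simpa using h2
  · push Not at hcase
    obtain ⟨m, hm0, N, hmN⟩ := hcase
    obtain ⟨l, hl⟩ : ∃ l, m l ≠ 0 := by
      by_contra hcon
      push Not at hcon
      exact hm0 (funext hcon)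
    obtain ⟨n', rfl⟩ : ∃ n', n = n' + 1 := ⟨n - 1, by have := l.2; omega⟩
    have hliZ : ∀ a : Fin (n' + 1) → ℤ, ∑ i, (a i : ℝ) * x i = 0 → a = 0 := by
      intro a ha
      funext i
      have h1 := Fintype.linearIndependent_iff.1 hli (fun i => (a i : ℚ)) (by
        rw [← ha]
        refine sum_congr rfl fun i _ => ?_
        rw [Algebra.smul_def]
        simp) i
      exact_mod_cast h1
    have hN0 : N ≠ 0 := by
      rintro rfl
      exact hm0 (hliZ m (by rw [hmN]; simp))
    have h1 := key n' (fun i => l.succAbove i) (by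
      intro a ha M hM
      have h2 := hliZ (fun i => (l.insertNth (α := fun _ => ℤ) 0 (fun i => N * a i) i : ℤ) - M * m i) (by
        have e : ∀ i, ((((l.insertNth (α := fun _ => ℤ) 0 (fun i => N * a i) i : ℤ) - M * m i : ℤ)) : ℝ) * x i =
            ((l.insertNth (α := fun _ => ℤ) 0 (fun i => N * a i) i : ℤ) : ℝ) * x i - M * ((m i : ℝ) * x i) := by
          intro i
          push_cast
          ring
        rw [sum_congr rfl fun i _ => e i, sum_sub_distrib, ← mul_sum, hmN, Fin.sum_univ_succAbove _ l]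
        simp only [Fin.insertNth_apply_same, Fin.insertNth_apply_succAbove, Int.cast_zero, zero_mul, zero_add]
        have e2 : ∑ i, ((N * a i : ℤ) : ℝ) * x (l.succAbove i) = N * ∑ i, (a i : ℝ) * x (l.succAbove i) := by
          rw [mul_sum]
          refine sum_congr rfl fun i _ => ?_
          push_cast
          ring
        rw [e2, hM]
        ring)
      have h3 := congrFun h2 l
      simp only [Fin.insertNth_apply_same, Pi.zero_apply, zero_sub, neg_eq_zero] at h3
      have hM0 : M = 0 := (mul_eq_zero.1 h3).resolve_right hl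
      apply ha
      funext i
      have h4 := congrFun h2 (l.succAbove i)
      simp only [Fin.insertNth_apply_succAbove, Pi.zero_apply, hM0, zero_mul, sub_zero] at h4
      exact (mul_eq_zero.1 h4).resolve_left hN0)
    -- the last number
    have hxl : x l ≠ 0 := hli.ne_zero l
    have hlogK : Appr q (Complex.exp ((Real.log p : ℝ) : ℂ)) := by
      have h0 : (0 : ℝ) < p := by exact_mod_cast hp.pos
      rw [← Complex.ofReal_exp, Real.exp_log h0]
      have : (((p : ℝ)) : ℂ) = (((p : ℚ)) : ℂ) := by push_cast; rfl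
      rw [this]
      exact Appr.rat hq _
    have hK : ∀ i, Complex.exp ((x i * Real.log p : ℝ) : ℂ) ∈ UK hq := by
      intro i
      have := Appr.rpow hq hlogK (hx i)
      have e : ((x i * Real.log p : ℝ) : ℂ) = (x i : ℂ) * ((Real.log p : ℝ) : ℂ) := Complex.ofReal_mul _ _
      rw [e]
      exact this
    have htr : Transcendental (UK hq) ((x l * Real.log p : ℝ) : ℂ) := by
      intro halg
      have := UK_closed hq
      obtain ⟨z, hz⟩ := minpoly.mem_range_of_degree_eq_one (UK hq) _
        (IsAlgClosed.degree_eq_one_of_irreducible (UK hq) (minpoly.irreducible halg.isIntegral))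
      have h5 : ((x l * Real.log p : ℝ) : ℂ) ∈ UK hq := hz ▸ z.2
      apply log_notMem hq hp
      have h6 : ((x l : ℝ) : ℂ) ∈ UK hq := RAppr.appr hq (hx l)
      have h7 : ((Real.log p : ℝ) : ℂ) = ((x l * Real.log p : ℝ) : ℂ) / ((x l : ℝ) : ℂ) := by
        have : ((x l : ℝ) : ℂ) ≠ 0 := by exact_mod_cast hxl
        push_cast
        field_simp
      rw [h7]
      exact (UK hq).div_mem h5 h6
    have h2 := (h1.option_iff_transcendental ((x l * Real.log p : ℝ) : ℂ)).2 (fun halg => htr (by
      refine IsAlgebraic.tower_top_of_subalgebra_le (B := (UK hq).toSubalgebra) ?_ halg |> fun h => h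
      rw [Algebra.adjoin_le_iff]
      rintro _ ⟨i, rfl⟩
      exact hK _))
    have h3 := trdeg_le (F := F) _ (fun o => by
      rcases o with _ | i
      · exact hzF l
      · exact heF _) h2
    simpa using h3

end Pool.Agent.R347.BE
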