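import Pool.Agent.R347.BE.Approx

/-!
# The logarithms of the primes are linearly independent over `R`
-/

set_option autoImplicit false

namespace Pool.Agent.R347.BE

open Finset
open Pool.Agent.R347.LW

variable {q : ℕ → ℕ} (hq : ∀ k, 2 ≤ q k)

theorem logs_indep : LinearIndependent (UR hq) (fun p : Nat.Primes => Real.log (p : ℕ)) := by
  classical
  rw [linearIndependent_iff']
  intro s g h p0 hp0
  by_contra h0
  have hg0 : (g p0 : ℝ) ≠ 0 := fun h1 => h0 (Subtype.ext h1)
  have h' : ∑ p ∈ s, (g p : ℝ) * Real.log (p : ℕ) = 0 := h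
  have e1 : ∑ j, (g ((s.equivFin.symm j : s) : Nat.Primes) : ℝ) *
      Real.log ((((s.equivFin.symm j : s) : Nat.Primes) : ℕ)) = 0 := by
    rw [← h', ← Finset.sum_coe_sort s (fun p => (g p : ℝ) * Real.log (p : ℕ))]
    exact Equiv.sum_comp s.equivFin.symm (fun p : s => (g (p : Nat.Primes) : ℝ) *
      Real.log (((p : Nat.Primes) : ℕ)))
  have hj0 : ((s.equivFin.symm (s.equivFin ⟨p0, hp0⟩) : s) : Nat.Primes) = p0 := by simp
  have h2 := besi hq (ι := Fin 2) (fun j => (((s.equivFin.symm j : s) : Nat.Primes) : ℕ))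
    (fun j => ((s.equivFin.symm j : s) : Nat.Primes).2)
    (fun a b hab => s.equivFin.symm.injective (Subtype.ext (Subtype.ext hab)))
    ![fun j => (g ((s.equivFin.symm j : s) : Nat.Primes) : ℝ) / (2 * g p0), fun _ => 0]
    (fun i j => by
      fin_cases i
      · exact (UR hq).div_mem (g _).2 ((UR hq).mul_mem (ofNat_mem (UR hq) 2) (g p0).2)
      · exact (UR hq).zero_mem)
    ![1, -1]
    (fun i => by
      fin_cases i
      · exact (UR hq).one_mem
      · exact (UR hq).neg_mem (UR hq).one_mem)
    (fun i l hil => by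
      refine ⟨s.equivFin ⟨p0, hp0⟩, fun n hn => ?_⟩
      have e2 : (g p0 : ℝ) / (2 * g p0) = 1 / 2 := by field_simp
      fin_cases i <;> fin_cases l
      · exact hil rfl
      · simp only [Fin.zero_eta, Fin.mk_one, Matrix.cons_val_zero, Matrix.cons_val_one, hj0, e2] at hn
        have h3 : (1 : ℝ) = ((2 * n : ℤ) : ℝ) := by push_cast; linarith
        have h4 : (1 : ℤ) = 2 * n := by exact_mod_cast h3
        omega
      · simp only [Fin.zero_eta, Fin.mk_one, Matrix.cons_val_zero, Matrix.cons_val_one, hj0, e2] at hn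
        have h3 : (-1 : ℝ) = ((2 * n : ℤ) : ℝ) := by push_cast; linarith
        have h4 : (-1 : ℤ) = 2 * n := by exact_mod_cast h3
        omega
      · exact hil rfl)
    (by
      rw [Fin.sum_univ_two]
      have e3 : pw (fun j => (((s.equivFin.symm j : s) : Nat.Primes) : ℕ))
          (fun j => (g ((s.equivFin.symm j : s) : Nat.Primes) : ℝ) / (2 * g p0)) = 1 := by
        unfold pw
        rw [← Real.exp_zero]
        congr 1
        have e4 : ∀ j, (g ((s.equivFin.symm j : s) : Nat.Primes) : ℝ) / (2 * g p0) *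
            Real.log ((((s.equivFin.symm j : s) : Nat.Primes) : ℕ)) =
            ((2 * g p0 : ℝ))⁻¹ * ((g ((s.equivFin.symm j : s) : Nat.Primes) : ℝ) *
              Real.log ((((s.equivFin.symm j : s) : Nat.Primes) : ℕ))) := by
          intro j
          ring
        rw [sum_congr rfl fun j _ => e4 j, ← mul_sum, e1, mul_zero]
      have e5 : pw (fun j => (((s.equivFin.symm j : s) : Nat.Primes) : ℕ)) (fun _ => 0) = 1 := by
        unfold pw
        simp
      simp only [Matrix.cons_val_zero, Matrix.cons_val_one, e3, e5]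
      ring) 0
  exact one_ne_zero h2

end Pool.Agent.R347.BE
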