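import Pool.Agent.R347.BE.Cor

/-!
# Schanuel's inequality for tuples of a large `ℚ`-subspace of `ℂ`
-/

set_option autoImplicit false

namespace Pool.Agent.R347.BE

open Finset
open Pool.Agent.R347.LW

/-- the `ℚ`-span of the logarithms of the primes -/
noncomputable def Lg : Submodule ℚ ℂ := Submodule.span ℚ {z | ∃ p : ℕ, p.Prime ∧ z = ((Real.log p : ℝ) : ℂ)}

/-- the `R`-span of the logarithms of the primes -/
noncomputable def Mg (R : IntermediateField ℚ ℝ) : Submodule ℚ ℂ :=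
  Submodule.span ℚ {z | ∃ (p : ℕ) (x : ℝ), p.Prime ∧ x ∈ R ∧ z = ((x * Real.log p : ℝ) : ℂ)}

theorem Lg_le (R : IntermediateField ℚ ℝ) : Lg ≤ Mg R := by
  refine Submodule.span_mono ?_
  rintro z ⟨p, hp, rfl⟩
  exact ⟨p, 1, hp, R.one_mem, by rw [one_mul]⟩

variable {q : ℕ → ℕ} (hq : ∀ k, 2 ≤ q k)

theorem rep1 {v : ℂ} (hv : v ∈ Mg (UR hq)) : ∃ (s : Finset ℕ) (f : ℕ → ℝ), (∀ p ∈ s, p.Prime) ∧
    (∀ p, RAppr q (f p)) ∧ (∀ p, p ∉ s → f p = 0) ∧ v = ((∑ p ∈ s, f p * Real.log p : ℝ) : ℂ) := by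
  classical
  have hsub : ∀ (s t : Finset ℕ) (f : ℕ → ℝ), s ⊆ t → (∀ p, p ∉ s → f p = 0) →
      ∑ p ∈ s, f p * Real.log p = ∑ p ∈ t, f p * Real.log p := by
    intro s t f hst hf
    refine sum_subset hst fun p _ hp => ?_
    rw [hf p hp, zero_mul]
  refine Submodule.span_induction (p := fun v _ => ∃ (s : Finset ℕ) (f : ℕ → ℝ), (∀ p ∈ s, p.Prime) ∧
    (∀ p, RAppr q (f p)) ∧ (∀ p, p ∉ s → f p = 0) ∧ v = ((∑ p ∈ s, f p * Real.log p : ℝ) : ℂ)) ?_ ?_ ?_ ?_ hv
  · rintro z ⟨p, x, hp, hx, rfl⟩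
    refine ⟨{p}, fun l => if l = p then x else 0, fun l hl => ?_, fun l => ?_, fun l hl => ?_, ?_⟩
    · rw [mem_singleton.1 hl]; exact hp
    · dsimp only
      split_ifs
      · exact hx
      · exact (UR hq).zero_mem
    · dsimp only
      rw [if_neg (fun h => hl (mem_singleton.2 h))]
    · simp
  · exact ⟨∅, fun _ => 0, by simp, fun _ => (UR hq).zero_mem, fun _ _ => rfl, by simp⟩
  · rintro a b _ _ ⟨s, f, h1, h2, h3, rfl⟩ ⟨t, g, k1, k2, k3, rfl⟩
    refine ⟨s ∪ t, fun p => f p + g p, fun p hp => ?_, fun p => (UR hq).add_mem (h2 p) (k2 p),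
      fun p hp => ?_, ?_⟩
    · rcases mem_union.1 hp with h | h
      · exact h1 p h
      · exact k1 p h
    · have e1 := h3 p (fun h => hp (mem_union_left _ h))
      have e2 := k3 p (fun h => hp (mem_union_right _ h))
      dsimp only
      rw [e1, e2, add_zero]
    · rw [hsub s (s ∪ t) f subset_union_left h3, hsub t (s ∪ t) g subset_union_right k3, ← Complex.ofReal_add,
        ← sum_add_distrib]
      congr 1
      refine sum_congr rfl fun p _ => ?_
      ring
  · rintro c a _ ⟨s, f, h1, h2, h3, rfl⟩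
    refine ⟨s, fun p => (c : ℝ) * f p, h1, fun p => (UR hq).mul_mem ?_ (h2 p), fun p hp => ?_, ?_⟩
    · simp
    · dsimp only
      rw [h3 p hp, mul_zero]
    · rw [Algebra.smul_def]
      simp only [mul_assoc]
      rw [← mul_sum]
      push_cast
      simp

theorem rep {l : ℕ} (c : Fin l → ℂ) (hc : ∀ i, c i ∈ Mg (UR hq)) : ∃ (r : ℕ) (P : Fin r → ℕ)
    (a : Fin l → Fin r → ℝ), (∀ j, (P j).Prime) ∧ Function.Injective P ∧ (∀ i j, RAppr q (a i j)) ∧
      ∀ i, c i = ((∑ j, a i j * Real.log (P j) : ℝ) : ℂ) := by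
  classical
  choose s f h1 h2 h3 h4 using fun i => rep1 hq (hc i)
  set t : Finset ℕ := univ.biUnion s with ht
  refine ⟨t.card, fun j => (t.equivFin.symm j : ℕ), fun i j => f i (t.equivFin.symm j : ℕ), fun j => ?_,
    fun j j' h => ?_, fun i j => h2 _ _, fun i => ?_⟩
  · have hj := (t.equivFin.symm j).2
    obtain ⟨i, _, hi⟩ := mem_biUnion.1 hj
    exact h1 i _ hi
  · exact t.equivFin.symm.injective (Subtype.ext h)
  · have e1 : ∑ j, f i (t.equivFin.symm j : ℕ) * Real.log ((t.equivFin.symm j : ℕ)) =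
        ∑ p ∈ t, f i p * Real.log p := by
      rw [← Finset.sum_coe_sort t (fun p => f i p * Real.log p)]
      exact Equiv.sum_comp t.equivFin.symm (fun p : t => f i p * Real.log (p : ℕ))
    rw [e1, h4 i]
    congr 1
    refine sum_subset (subset_biUnion_of_mem s (mem_univ i)) fun p _ hp => ?_
    rw [h3 i p hp, zero_mul]

theorem exp_prime_mem {p : ℕ} (hp : p.Prime) {x : ℝ} (hx : RAppr q x) :
    Complex.exp ((x * Real.log p : ℝ) : ℂ) ∈ UK hq := by
  have hlogK : Appr q (Complex.exp ((Real.log p : ℝ) : ℂ)) := by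
    have h0 : (0 : ℝ) < p := by exact_mod_cast hp.pos
    rw [← Complex.ofReal_exp, Real.exp_log h0]
    have : (((p : ℝ)) : ℂ) = (((p : ℚ)) : ℂ) := by push_cast; rfl
    rw [this]
    exact Appr.rat hq _
  have := Appr.rpow hq hlogK hx
  have e : ((x * Real.log p : ℝ) : ℂ) = (x : ℂ) * ((Real.log p : ℝ) : ℂ) := Complex.ofReal_mul _ _
  rw [e]
  exact this

theorem exp_mem {v : ℂ} (hv : v ∈ Mg (UR hq)) : Complex.exp v ∈ UK hq := by
  obtain ⟨s, f, h1, h2, h3, rfl⟩ := rep1 hq hv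
  rw [Complex.ofReal_sum, Complex.exp_sum]
  exact prod_mem fun p hp => exp_prime_mem hq (h1 p hp) (h2 p)

theorem exp_notMem {z : ℂ} (hz : z ∈ UK hq) (h0 : z ≠ 0) : Complex.exp z ∉ UK hq := by
  intro h
  have h1 := algIndU hq 1 (fun _ => ⟨z, hz⟩) (by
    rw [linearIndependent_unique_iff]
    intro h2
    exact h0 (congrArg Subtype.val h2))
  refine h1.transcendental 0 ?_
  exact isAlgebraic_algebraMap (⟨_, h⟩ : UK hq)

/-- independence of the exponentials of elements of `Mg` -/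
theorem indep_M {l : ℕ} (c : Fin l → ℂ) (hc : ∀ i, c i ∈ Mg (UR hq))
    (h : ∀ m : Fin l → ℤ, ∑ i, (m i : ℂ) * c i ∈ Lg → m = 0) :
    AlgebraicIndependent ℚ (fun i => Complex.exp (c i)) := by
  obtain ⟨r, P, a, hP, hPi, ha, hca⟩ := rep hq c hc
  have h1 := indep hq P hP hPi a ha (fun m hm => by
    by_contra hcon
    push Not at hcon
    choose N hN using hcon
    apply hm
    apply h
    have e : ∑ i, (m i : ℂ) * c i = ∑ j, (N j : ℚ) • ((Real.log (P j) : ℝ) : ℂ) := by
      have e1 : ∀ i, (m i : ℂ) * c i = ∑ j, (((m i : ℝ) * a i j * Real.log (P j) : ℝ) : ℂ) := by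
        intro i
        rw [hca i]
        push_cast
        rw [mul_sum]
        refine sum_congr rfl fun j _ => ?_
        ring
      rw [sum_congr rfl fun i _ => e1 i, sum_comm]
      refine sum_congr rfl fun j _ => ?_
      rw [← Complex.ofReal_sum, ← sum_mul, hN j, Algebra.smul_def, Complex.ofReal_mul]
      simp
    rw [e]
    exact Submodule.sum_mem _ fun j _ => Submodule.smul_mem _ _ (Submodule.subset_span ⟨P j, hP j, rfl⟩))
  have h2 : AlgebraicIndependent ℚ (fun i => pw P (a i)) :=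
    h1.restrictScalars (algebraMap ℚ (UR hq)).injective
  have h3 := (AlgHom.algebraicIndependent_iff (IsScalarTower.toAlgHom ℚ ℝ ℂ)
    (algebraMap ℝ ℂ).injective).2 h2
  have h4 : (fun i => Complex.exp (c i)) = (IsScalarTower.toAlgHom ℚ ℝ ℂ) ∘ (fun i => pw P (a i)) := by
    funext i
    rw [hca i]
    simp [pw]
  rw [h4]
  exact h3

/-- scaling -/
theorem scale {K L : Type} [Field K] [Field L] [Algebra K L] {k : ℕ} (x : Fin k → L) (u : Fin k → K)
    (hu : ∀ i, u i ≠ 0) (h : AlgebraicIndependent K x) :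
    AlgebraicIndependent K (fun i => algebraMap K L (u i) * x i) := by
  have e : (MvPolynomial.aeval (fun i => algebraMap K L (u i) * x i) : MvPolynomial (Fin k) K →ₐ[K] L) =
      (MvPolynomial.aeval x).comp (MvPolynomial.aeval (fun i => MvPolynomial.C (u i) * MvPolynomial.X i)) := by
    ext i
    simp
  have e2 : Function.LeftInverse
      (MvPolynomial.aeval (fun i => MvPolynomial.C (u i)⁻¹ * MvPolynomial.X i) :
        MvPolynomial (Fin k) K →ₐ[K] MvPolynomial (Fin k) K)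
      (MvPolynomial.aeval (fun i => MvPolynomial.C (u i) * MvPolynomial.X i)) := by
    intro P
    have e3 : ((MvPolynomial.aeval (fun i => MvPolynomial.C (u i)⁻¹ * MvPolynomial.X i) :
        MvPolynomial (Fin k) K →ₐ[K] MvPolynomial (Fin k) K)).comp
      (MvPolynomial.aeval (fun i => MvPolynomial.C (u i) * MvPolynomial.X i)) = AlgHom.id K _ := by
      ext i
      rw [AlgHom.comp_apply, MvPolynomial.aeval_X, map_mul, MvPolynomial.aeval_X, AlgHom.id_apply]
      have : (MvPolynomial.aeval (fun i => MvPolynomial.C (u i)⁻¹ * MvPolynomial.X i) :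
        MvPolynomial (Fin k) K →ₐ[K] MvPolynomial (Fin k) K) (MvPolynomial.C (u i)) = MvPolynomial.C (u i) :=
        AlgHom.commutes _ _
      rw [this, ← mul_assoc, ← MvPolynomial.C_mul, mul_inv_cancel₀ (hu i), MvPolynomial.C_1, one_mul]
    exact DFunLike.congr_fun e3 P
  unfold AlgebraicIndependent
  rw [e]
  rw [AlgHom.coe_comp]
  exact Function.Injective.comp h e2.injective

/-- clearing denominators -/
theorem clear {n : ℕ} (w : Fin n → ℂ) {z : ℂ} (hz : z ∈ Submodule.span ℚ (Set.range w)) :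
    ∃ N : ℕ, N ≠ 0 ∧ Complex.exp (N * z) ∈ IntermediateField.adjoin ℚ
      (Set.range w ∪ Set.range (fun i => Complex.exp (w i))) := by
  set F := IntermediateField.adjoin ℚ (Set.range w ∪ Set.range (fun i => Complex.exp (w i))) with hF
  refine Submodule.span_induction (p := fun z _ => ∃ N : ℕ, N ≠ 0 ∧ Complex.exp (N * z) ∈ F) ?_ ?_ ?_ ?_ hz
  · rintro _ ⟨i, rfl⟩
    refine ⟨1, one_ne_zero, ?_⟩
    rw [Nat.cast_one, one_mul]
    exact IntermediateField.subset_adjoin ℚ _ (Or.inr ⟨i, rfl⟩)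
  · exact ⟨1, one_ne_zero, by simp⟩
  · rintro a b _ _ ⟨N, hN, h1⟩ ⟨M, hM, h2⟩
    refine ⟨N * M, mul_ne_zero hN hM, ?_⟩
    have e : Complex.exp (((N * M : ℕ) : ℂ) * (a + b)) = Complex.exp (N * a) ^ M * Complex.exp (M * b) ^ N := by
      rw [← Complex.exp_nat_mul, ← Complex.exp_nat_mul, ← Complex.exp_add]
      congr 1
      push_cast
      ring
    rw [e]
    exact mul_mem (pow_mem h1 _) (pow_mem h2 _)
  · rintro c a _ ⟨N, hN, h1⟩
    refine ⟨N * c.den, mul_ne_zero hN c.den_nz, ?_⟩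
    have e : Complex.exp (((N * c.den : ℕ) : ℂ) * (c • a)) = Complex.exp (N * a) ^ c.num := by
      rw [← Complex.exp_int_mul]
      congr 1
      have hc : (c : ℂ) * (c.den : ℂ) = (c.num : ℂ) := by exact_mod_cast Rat.mul_den_eq_num c
      rw [Algebra.smul_def]
      simp only [eq_ratCast]
      push_cast
      linear_combination (N : ℂ) * a * hc
    rw [e]
    exact zpow_mem h1 _

theorem span_mem {n : ℕ} (w : Fin n → ℂ) {z : ℂ} (hz : z ∈ Submodule.span ℚ (Set.range w)) :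
    z ∈ IntermediateField.adjoin ℚ (Set.range w ∪ Set.range (fun i => Complex.exp (w i))) := by
  set F := IntermediateField.adjoin ℚ (Set.range w ∪ Set.range (fun i => Complex.exp (w i))) with hF
  refine Submodule.span_induction (p := fun z _ => z ∈ F) ?_ ?_ ?_ ?_ hz
  · rintro _ ⟨i, rfl⟩
    exact IntermediateField.subset_adjoin ℚ _ (Or.inl ⟨i, rfl⟩)
  · exact F.zero_mem
  · exact fun a b _ _ h1 h2 => F.add_mem h1 h2
  · exact fun c a _ h => F.smul_mem h

end Pool.Agent.R347.BE
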