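import Pool.Agent.R347.BE.Mod
import Pool.Agent.R347.BE.Alg

/-!
# Schanuel's inequality for tuples of a large `ℚ`-subspace of `ℂ`
-/

set_option autoImplicit false

namespace Pool.Agent.R347.BE

open Finset
open Pool.Agent.R347.LW

/-- a field as a subspace -/
noncomputable def Sp (K : IntermediateField ℚ ℂ) : Submodule ℚ ℂ := Subalgebra.toSubmodule K.toSubalgebra

theorem mem_Sp (K : IntermediateField ℚ ℂ) (z : ℂ) : z ∈ Sp K ↔ z ∈ K := Iff.rfl

theorem nat_mem (N : ℕ) {z : ℂ} {S : Submodule ℚ ℂ} (hz : z ∈ S) : (N : ℂ) * z ∈ S := by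
  have := S.smul_mem (N : ℚ) hz
  rw [Algebra.smul_def] at this
  simpa using this

theorem rat_smul (r : ℚ) (z : ℂ) : r • z = (r : ℂ) * z := by
  rw [Algebra.smul_def]
  simp

variable {q : ℕ → ℕ} (hq : ∀ k, 2 ≤ q k)

/-- independence over the large field -/
theorem indep_K {k : ℕ} (b : Fin k → ℂ) (N : Fin k → ℕ) (hN : ∀ i, N i ≠ 0)
    (hb : ∀ i, b i ∈ Sp (UK hq) ⊔ Mg (UR hq))
    (hbM : ∀ g : Fin k → ℚ, ∑ i, g i • b i ∈ Mg (UR hq) → g = 0) :
    AlgebraicIndependent (UK hq) (fun i => Complex.exp (N i * b i)) := by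
  have hsup : ∀ i, ∃ α ∈ Sp (UK hq), ∃ β ∈ Mg (UR hq), α + β = b i := fun i =>
    Submodule.mem_sup.1 (hb i)
  choose α hα β hβ hαβ using hsup
  have hβM : ∀ i, (N i : ℂ) * β i ∈ Mg (UR hq) := fun i => nat_mem _ (hβ i)
  have hαK : ∀ i, (N i : ℂ) * α i ∈ UK hq := fun i => nat_mem (S := Sp (UK hq)) _ (hα i)
  have hlα : LinearIndependent ℚ (fun i => (⟨(N i : ℂ) * α i, hαK i⟩ : UK hq)) := by
    rw [Fintype.linearIndependent_iff]
    intro g hg i
    have hg' : ∑ i, (g i : ℂ) * ((N i : ℂ) * α i) = 0 := by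
      have h1 : (UK hq).val (∑ i, g i • (⟨(N i : ℂ) * α i, hαK i⟩ : UK hq)) = 0 := by rw [hg, map_zero]
      rw [map_sum] at h1
      rw [← h1]
      refine sum_congr rfl fun i _ => ?_
      rw [Algebra.smul_def, map_mul]
      have e8 : (UK hq).val (algebraMap ℚ (UK hq) (g i)) = (g i : ℂ) := by
        rw [eq_ratCast, map_ratCast]
      rw [e8]
      rfl
    have h4 := hbM (fun i => g i * N i) (by
      have e : ∑ i, (g i * N i : ℚ) • b i = ∑ i, (g i : ℚ) • ((N i : ℂ) * β i) := by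
        have e2 : ∀ i, (g i * N i : ℚ) • b i =
            (g i : ℂ) * ((N i : ℂ) * α i) + (g i : ℚ) • ((N i : ℂ) * β i) := by
          intro i
          rw [← hαβ i, rat_smul, rat_smul]
          push_cast
          ring
        rw [sum_congr rfl fun i _ => e2 i, sum_add_distrib, hg', zero_add]
      rw [e]
      exact Submodule.sum_mem _ fun i _ => Submodule.smul_mem _ _ (hβM i))
    rcases mul_eq_zero.1 (congrFun h4 i) with h5 | h5
    · exact h5
    · exact absurd (by exact_mod_cast h5) (hN i)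
  have h1 := algIndU hq _ _ hlα
  have h2 := scale _ (fun i => (⟨Complex.exp ((N i : ℂ) * β i), exp_mem hq (hβM i)⟩ : UK hq))
    (fun i h0 => Complex.exp_ne_zero _ (congrArg Subtype.val h0)) h1
  have h3 : (fun i => Complex.exp ((N i : ℂ) * b i)) =
      fun i => algebraMap (UK hq) ℂ (⟨Complex.exp ((N i : ℂ) * β i), exp_mem hq (hβM i)⟩ : UK hq) *
        Complex.exp (((⟨(N i : ℂ) * α i, hαK i⟩ : UK hq)) : ℂ) := by
    funext i
    show _ = Complex.exp ((N i : ℂ) * β i) * Complex.exp ((N i : ℂ) * α i)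
    rw [← Complex.exp_add, ← hαβ i]
    congr 1
    ring
  rw [h3]
  exact h2

/-- independence over `ℚ` -/
theorem indep_N {l : ℕ} (c : Fin l → ℂ) (N : Fin l → ℕ) (hN : ∀ i, N i ≠ 0)
    (hc : ∀ i, c i ∈ Mg (UR hq)) (hcL : ∀ g : Fin l → ℚ, ∑ i, g i • c i ∈ Lg → g = 0) :
    AlgebraicIndependent ℚ (fun i => Complex.exp (N i * c i)) := by
  refine indep_M hq _ (fun i => nat_mem _ (hc i)) fun m hm => ?_
  have h4 := hcL (fun i => m i * N i) (by
    have e : ∑ i, (m i * N i : ℚ) • c i = ∑ i, (m i : ℂ) * ((N i : ℂ) * c i) := by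
      refine sum_congr rfl fun i _ => ?_
      rw [rat_smul]
      push_cast
      ring
    rw [e]
    exact hm)
  funext i
  rcases mul_eq_zero.1 (congrFun h4 i) with h5 | h5
  · exact_mod_cast h5
  · exact absurd (by exact_mod_cast h5) (hN i)

/-- a large algebraically independent family -/
theorem family {n : ℕ} (w : Fin n → ℂ) (hw : ∀ i, w i ∈ Sp (UK hq) ⊔ Mg (UR hq))
    (hli : LinearIndependent ℚ w) : ∃ (k l : ℕ) (x : Fin k → ℂ) (y : Fin l → ℂ),
      n ≤ k + l + Module.finrank ℚ ↥(Submodule.span ℚ (Set.range w) ⊓ Lg) ∧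
      ((∀ i, w i ∈ Mg (UR hq)) → k = 0) ∧
      (∀ i, Complex.exp (x i) ∈ IntermediateField.adjoin ℚ
        (Set.range w ∪ Set.range (fun i => Complex.exp (w i)))) ∧
      (∀ i, Complex.exp (y i) ∈ IntermediateField.adjoin ℚ
        (Set.range w ∪ Set.range (fun i => Complex.exp (w i)))) ∧
      AlgebraicIndependent (UK hq) (fun i => Complex.exp (x i)) ∧
      AlgebraicIndependent ℚ (fun i => Complex.exp (y i)) ∧
      (∀ i, Complex.exp (y i) ∈ UK hq) := by
  have : FiniteDimensional ℚ ↥(Submodule.span ℚ (Set.range w)) :=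
    FiniteDimensional.span_of_finite ℚ (Set.finite_range w)
  have hWn : Module.finrank ℚ ↥(Submodule.span ℚ (Set.range w)) = n := by
    rw [finrank_span_eq_card hli, Fintype.card_fin]
  have hWle : Submodule.span ℚ (Set.range w) ≤ Sp (UK hq) ⊔ Mg (UR hq) :=
    Submodule.span_le.2 (by rintro _ ⟨i, rfl⟩; exact hw i)
  obtain ⟨k, l, b, c, hbW, hcW, hcM, hdim, hk, hbM, hcL⟩ :=
    two_basis (Submodule.span ℚ (Set.range w)) (Mg (UR hq)) Lg (Lg_le _)
  choose N1 hN1 hF1 using fun i => clear w (hcW i)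
  choose N2 hN2 hF2 using fun i => clear w (hbW i)
  refine ⟨k, l, fun i => N2 i * b i, fun i => N1 i * c i, by omega, fun hwM => hk ?_, hF2, hF1,
    indep_K hq b N2 hN2 (fun i => hWle (hbW i)) hbM, indep_N hq c N1 hN1 hcM hcL,
    fun i => exp_mem hq (nat_mem _ (hcM i))⟩
  exact Submodule.span_le.2 (by rintro _ ⟨i, rfl⟩; exact hwM i)

/-- **Schanuel's inequality** up to the number of independent logarithms of rational numbers -/
theorem schanuel1 {n : ℕ} (w : Fin n → ℂ) (hw : ∀ i, w i ∈ Sp (UK hq) ⊔ Mg (UR hq))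
    (hli : LinearIndependent ℚ w) :
    (n : Cardinal) ≤ Algebra.trdeg ℚ (IntermediateField.adjoin ℚ
      (Set.range w ∪ Set.range (fun i => Complex.exp (w i)))) +
      (Module.finrank ℚ ↥(Submodule.span ℚ (Set.range w) ⊓ Lg) : ℕ) := by
  obtain ⟨k, l, x, y, hn, -, hxF, hyF, hx, hy, hyK⟩ := family hq w hw hli
  have h1 := hy.sumElim_of_tower (S := UK hq) (by
    rintro _ ⟨i, rfl⟩
    exact ⟨⟨_, hyK i⟩, rfl⟩) hx
  have h2 := trdeg_le (F := IntermediateField.adjoin ℚ
      (Set.range w ∪ Set.range (fun i => Complex.exp (w i)))) _ (fun o => by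
    rcases o with i | i
    · exact hxF i
    · exact hyF i) h1
  rw [Cardinal.mk_sum, Cardinal.mk_fin, Cardinal.mk_fin, Cardinal.lift_natCast, Cardinal.lift_natCast] at h2
  calc (n : Cardinal) ≤ ((k + l + Module.finrank ℚ ↥(Submodule.span ℚ (Set.range w) ⊓ Lg) : ℕ) : Cardinal) := by
        exact_mod_cast hn
    _ = ((k : Cardinal) + l) + (Module.finrank ℚ ↥(Submodule.span ℚ (Set.range w) ⊓ Lg) : ℕ) := by push_cast; rfl
    _ ≤ _ := add_le_add_left h2 _

/-- the same inequality, with an additional logarithm -/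
theorem schanuel2 {n : ℕ} (w : Fin n → ℂ) (hw : ∀ i, w i ∈ Mg (UR hq))
    (hli : LinearIndependent ℚ w) (hL : Submodule.span ℚ (Set.range w) ⊓ Lg ≠ ⊥) :
    (n : Cardinal) + 1 ≤ Algebra.trdeg ℚ (IntermediateField.adjoin ℚ
      (Set.range w ∪ Set.range (fun i => Complex.exp (w i)))) +
      (Module.finrank ℚ ↥(Submodule.span ℚ (Set.range w) ⊓ Lg) : ℕ) := by
  obtain ⟨k, l, x, y, hn, hk, hxF, hyF, hx, hy, hyK⟩ := family hq w (fun i => Submodule.mem_sup_right (hw i)) hli
  have hk0 := hk hw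
  obtain ⟨z, hz, hz0⟩ := (Submodule.ne_bot_iff _).1 hL
  have hzK : z ∉ UK hq := fun h => exp_notMem hq h hz0 (exp_mem hq (Lg_le _ hz.2))
  have htr : Transcendental (UK hq) z := by
    intro halg
    have := UK_closed hq
    obtain ⟨t, ht⟩ := minpoly.mem_range_of_degree_eq_one (UK hq) _
      (IsAlgClosed.degree_eq_one_of_irreducible (UK hq) (minpoly.irreducible halg.isIntegral))
    exact hzK (ht ▸ t.2)
  have h2 := (hy.option_iff_transcendental z).2 (fun halg => htr (by
    refine IsAlgebraic.tower_top_of_subalgebra_le (B := (UK hq).toSubalgebra) ?_ halg |> fun h => h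
    rw [Algebra.adjoin_le_iff]
    rintro _ ⟨i, rfl⟩
    exact hyK _))
  have h3 := trdeg_le (F := IntermediateField.adjoin ℚ
      (Set.range w ∪ Set.range (fun i => Complex.exp (w i)))) _ (fun o => by
    rcases o with _ | i
    · exact span_mem w hz.1
    · exact hyF _) h2
  rw [Cardinal.mk_option, Cardinal.mk_fin] at h3
  calc (n : Cardinal) + 1 ≤ ((l + Module.finrank ℚ ↥(Submodule.span ℚ (Set.range w) ⊓ Lg) + 1 : ℕ) : Cardinal) := by
        exact_mod_cast (by omega)
    _ = ((l : Cardinal) + 1) + (Module.finrank ℚ ↥(Submodule.span ℚ (Set.range w) ⊓ Lg) : ℕ) := by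
        push_cast
        rw [add_right_comm]
    _ ≤ _ := add_le_add_left h3 _

end Pool.Agent.R347.BE
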